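import Pool.Agent.Q138.PS.YK

/-!
# Effective Shafarevich conjecture for hyperelliptic Jacobians: adding a prime near `c n ^ j α ^ n` to the bad primes

We consider the hyperelliptic curves `y² = d (x - a_1) … (x - a_{2g+2})` of ALL genera `g ≥ 1` with rational Weierstrass points and good reduction
at all odd primes which do not divide `N`. There is a finite list `L N` of such curves up to isomorphism over the algebraic closure. Outside a
small set of real `α > 1`, for all primes `p` close to the numbers `c n ^ j α ^ n` and all `N ≤ p ^ (1 - ε)`, all the curves for `p N` are, up to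
isomorphism over the algebraic closure, in the list for `N`.
-/

set_option autoImplicit false

namespace Pool.Agent.Results.MP_07b2d0_nt.AddedPrimesNearPowers

open Filter
open Pool.Agent.Q231.SH (Config GoodOutside IsoQbar)
open Pool.Agent.Q138.PS (NearPow)

/-- all the curves, of all genera, with good reduction at the odd primes which do not divide `M` are isomorphic over the algebraic closure to a
curve of the list `L` -/
def AllIn (L : Set Config) (M : ℕ) : Prop :=
  ∀ (g : ℕ) (d : ℚ) (a : Fin (2 * g + 2) → ℚ), 1 ≤ g → GoodOutside M d a →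
    ∃ b : Fin (2 * g + 2) → ℚ, (⟨g, b⟩ : Config) ∈ L ∧ IsoQbar a b

/-- **Theorem.** -/
theorem result : ∃ L : ℕ → Set Config, (∀ N, (L N).Finite ∧ ∀ x ∈ L N, Function.Injective x.2) ∧
    (∀ N, 1 ≤ N → AllIn (L N) N) ∧
    ∀ ε l : ℝ, 0 < ε → ε ≤ 1 → l < 1 →
    ∃ Z : Set ℝ, dimH Z ≤ ENNReal.ofReal (min (1 - ε / 5) ((4 - 2 * ε) / 3) / (1 - l)) ∧ ∀ α : ℝ, 1 < α → α ∉ Z →
      ∀ c : ℝ, 0 < c → IsAlgebraic ℚ c → ∀ (j : ℤ) (A : ℝ), ∀ᶠ n : ℕ in atTop,
        ∀ p N : ℕ, p.Prime → NearPow α c j A l n p → 1 ≤ N → (N : ℝ) ≤ (p : ℝ) ^ (1 - ε) → AllIn (L N) (p * N) := by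
  obtain ⟨L, hL1, hL2⟩ := Pool.Agent.Q138.PS.Hy.exists_lists
  refine ⟨L, hL1, ?_, ?_⟩
  · intro N hN g d a hg h
    refine hL2 N hN g hg a h.2.1 fun i hi => Pool.Agent.Q231.SH.cross_mem hg h ?_ i hi
    rintro ⟨t, ht, h9, h10⟩
    have h11 : (Pool.Agent.Q231.SH.rad3 t : ℝ) ≤ ((2 * N : ℕ) : ℝ) := by
      exact_mod_cast Nat.le_of_dvd (by omega) h10
    push_cast at h11
    linarith
  · intro ε l hε hε1 hl
    obtain ⟨Z, hZ, hg⟩ := Pool.Agent.Q138.PS.Sz.windows ε l hε hε1 hl
    refine ⟨Z, hZ, fun α hα hαZ c hc hca j A => ?_⟩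
    filter_upwards [hg α hα hαZ 1 c hc hca j A] with n hn p N hp hnear hN hNp g d a hg h
    obtain ⟨-, hfine⟩ := hn p hp hnear
    have hp0 : (0 : ℝ) < p := by exact_mod_cast hp.pos
    refine hL2 N hN g hg a h.2.1 fun i hi => Pool.Agent.Q138.PS.Hy.cross_of hg hp hN h (fun s hs hps => ?_) i hi
    refine lt_of_le_of_lt ?_ (hfine s hs hps)
    rw [show (2 - ε : ℝ) = 1 + (1 - ε) by ring, Real.rpow_add hp0, Real.rpow_one]
    simp only [Nat.factorial_one, Nat.cast_one, mul_one]
    gcongr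

end Pool.Agent.Results.MP_07b2d0_nt.AddedPrimesNearPowers
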