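import Pool.Agent.Q84.NX.CrossRough

/-!
# Effective Shafarevich conjecture: hyperelliptic Jacobians over `Spec ℤ[1/(N l)]` for most primes `l`, and for most rough numbers

We consider the curves `y² = d (x - a_1) ⋯ (x - a_(2g+2))` of all genera `g ≥ 1`, where the `a_i` are rational, with good reduction at all odd primes
which do not divide a given number. There are finite lists `L(N)`, `N ≥ 1`, with the following property.

1. For all real numbers `M, X ≥ 1`, for all but `C (M X) ^ (2/3)` of the primes `l ≤ X` and for ALL `N` with `rad N ≤ M` every curve with good reduction outside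
   `2 N l` is isomorphic over the algebraic closure to a curve of the list `L(N)`. The constant `C` is absolute.
2. Let `0 < ε ≤ 1`. For all but `C(ε) X ^ (1 - ε / 10)` of the primes `l ≤ X` the same is true for ALL `N` with `rad N ≤ l ^ (1 - ε)`.
3. For all real `M, z, R ≥ 1`, for all but `C M ^ 2 R z ^ (-1/3)` of the integers `r ≤ R` without prime factors `≤ z` and for ALL `N` with `rad N ≤ M` every curve
   with good reduction outside `2 N r` is isomorphic over the algebraic closure to a curve of the list `L(N)`. The constant `C` is absolute.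

So for these `l` there is a bound for the heights of the Jacobians of the curves for `Spec ℤ[1/(N l)]` which depends only on `N`.

Method: the cross ratios of the branch points come from abc-triples with a radical dividing `2 N l`; if `l` divides such a triple, the triple has a
small radical compared with `l`. There are few triples with a small radical (starting library), and few integers `l` divide an abc-triple with a
radical at most `l ^ (2 - ε)` (starting library).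
-/

set_option autoImplicit false

namespace Pool.Agent.Results.MP_07b2d0_nt.AddingOnePrime

open Pool.Agent.Q231.SH (Config GoodReduction GoodOutside IsoQbar IsTriple rad3 trip six)

/-- the product of the prime factors -/
def rad (n : ℕ) : ℕ := ∏ q ∈ n.primeFactors, q

/-- all the curves `y² = d ∏ (x - a i)` with good reduction at the odd primes not dividing `N`, of all genera, are isomorphic over the
algebraic closure to a curve of the list `L` -/
def AllIn (L : Set Config) (N : ℕ) : Prop :=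
  ∀ (g : ℕ) (d : ℚ) (a : Fin (2 * g + 2) → ℚ), 1 ≤ g → GoodOutside N d a →
    ∃ b : Fin (2 * g + 2) → ℚ, (⟨g, b⟩ : Config) ∈ L ∧ IsoQbar a b

/-- for some `N` with `rad N ≤ M` some curve for `N r` is not in the list for `N` -/
def NewCurves (L : ℕ → Set Config) (M : ℝ) (r : ℕ) : Prop :=
  ∃ N : ℕ, 1 ≤ N ∧ ((rad N : ℕ) : ℝ) ≤ M ∧ ¬ AllIn (L N) (N * r)

/-- one finite list for each `N`: if all the triples which divide `2 M` divide `2 N`, the curves for `M` are in the list for `N` -/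
theorem exists_lists : ∃ L : ℕ → Set Config, ∀ N, 1 ≤ N → (L N).Finite ∧ (∀ x ∈ L N, Function.Injective x.2) ∧
    ∀ M, (∀ s, IsTriple s → rad3 s ∣ 2 * M → rad3 s ≤ 2 * N) → AllIn (L N) M := by
  have h : ∀ N : ℕ, ∃ L : Set Config, 1 ≤ N → L.Finite ∧ (∀ x ∈ L, Function.Injective x.2) ∧
    ∀ M, (∀ s, IsTriple s → rad3 s ∣ 2 * M → rad3 s ≤ 2 * N) → AllIn L M := by
    intro N
    set Y : ℝ := 2 * (N : ℝ) with hY
    set Λ : Set ℚ := ⋃ s ∈ trip Y, (six s : Set ℚ) with hΛ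
    have hΛfin : Λ.Finite := (Pool.Agent.Q231.SH.trip_finite Y).biUnion fun s _ => Finset.finite_toSet _
    obtain ⟨L, hL, hinj, hlist⟩ := Pool.Agent.Q290.AB.exists_list Λ hΛfin
    refine ⟨{x : Config | (⟨2 * x.1 + 2, x.2⟩ : Pool.Agent.Q290.AB.Conf) ∈ L}, fun hN => ⟨?_, ?_, ?_⟩⟩
    · refine Set.Finite.preimage (f := fun x : Config => (⟨2 * x.1 + 2, x.2⟩ : Pool.Agent.Q290.AB.Conf)) ?_ hL
      rintro ⟨g, a⟩ - ⟨g', a'⟩ - h
      have h1 : 2 * g + 2 = 2 * g' + 2 := congrArg Sigma.fst h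
      have h2 : g = g' := by omega
      subst h2
      have h3 : a = a' := eq_of_heq (Sigma.mk.inj_iff.1 h).2
      rw [h3]
    · intro x hx
      exact hinj _ hx
    · intro M hM g d a hg hgood
      obtain ⟨b, hbL, hcr⟩ := hlist (2 * g + 2) (by omega) a hgood.2.1 (fun i hi => by
        obtain ⟨s, hs, h6⟩ := Pool.Agent.Q231.SH.cross_mem hg hgood (Y := Y) (by
          rintro ⟨t, ht, h9, h10⟩
          have h11 : (rad3 t : ℝ) ≤ 2 * N := by exact_mod_cast hM t ht h10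
          linarith) i hi
        exact Set.mem_biUnion hs h6)
      exact ⟨b, hbL, Pool.Agent.Q231.SH.iso_of_cross hg hgood.2.1 (hinj _ hbL) hcr.symm⟩
  choose L hL using h
  exact ⟨L, hL⟩

theorem hit_of_new {L : ℕ → Set Config}
    (hL : ∀ N, 1 ≤ N → ∀ M, (∀ s, IsTriple s → rad3 s ∣ 2 * M → rad3 s ≤ 2 * N) → AllIn (L N) M)
    {M : ℝ} {l : ℕ} (hl : l.Prime) (h : NewCurves L M l) : Pool.Agent.Q84.NX.Hit M l := by
  obtain ⟨N, hN, hM, hnot⟩ := h
  by_contra hcon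
  refine hnot (hL N hN (N * l) fun s hs hrad => ?_)
  by_cases hls : l ∣ s.1 * s.2 * (s.1 + s.2)
  · exact absurd ⟨s, hs, hls, rad N, Pool.Agent.Q84.NX.rd_pos N, hM, Pool.Agent.Q84.NX.rad3_rd hs (by omega) hrad⟩ hcon
  · have hco : Nat.Coprime (rad3 s) l := by
      rw [Nat.coprime_comm, Nat.Prime.coprime_iff_not_dvd hl]
      intro hd
      apply hls
      unfold Pool.Agent.Q231.SH.rad3 at hd
      rw [Prime.dvd_finsetProd_iff hl.prime] at hd
      obtain ⟨q, hq, hlq⟩ := hd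
      have := (Nat.prime_dvd_prime_iff_eq hl (Nat.prime_of_mem_primeFactors hq)).1 hlq
      rw [this]
      exact Nat.dvd_of_mem_primeFactors hq
    have h13 : rad3 s ∣ 2 * N := by
      rw [← mul_assoc] at hrad
      exact hco.dvd_of_dvd_mul_right hrad
    exact Nat.le_of_dvd (by omega) h13

theorem hitR_of_new {L : ℕ → Set Config}
    (hL : ∀ N, 1 ≤ N → ∀ M, (∀ s, IsTriple s → rad3 s ∣ 2 * M → rad3 s ≤ 2 * N) → AllIn (L N) M)
    {M : ℝ} {r : ℕ} (h : NewCurves L M r) : Pool.Agent.Q84.NX.HitR M r := by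
  obtain ⟨N, hN, hM, hnot⟩ := h
  by_contra hcon
  refine hnot (hL N hN (N * r) fun s hs hrad => ?_)
  have hco : Nat.Coprime (rad3 s) r := by
    apply Nat.Coprime.symm
    rw [Nat.coprime_iff_gcd_eq_one]
    by_contra hg
    obtain ⟨l, hl, hlg⟩ := Nat.exists_prime_and_dvd hg
    have hd := hlg.trans (Nat.gcd_dvd_right r (rad3 s))
    have hlr := hlg.trans (Nat.gcd_dvd_left r (rad3 s))
    unfold Pool.Agent.Q231.SH.rad3 at hd
    rw [Prime.dvd_finsetProd_iff hl.prime] at hd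
    obtain ⟨q, hq, hlq⟩ := hd
    have h1 := (Nat.prime_dvd_prime_iff_eq hl (Nat.prime_of_mem_primeFactors hq)).1 hlq
    exact hcon ⟨l, hl, hlr, s, hs, by rw [h1]; exact Nat.dvd_of_mem_primeFactors hq, rad N,
      Pool.Agent.Q84.NX.rd_pos N, hM, Pool.Agent.Q84.NX.rad3_rd hs (by omega) hrad⟩
  have h13 : rad3 s ∣ 2 * N := by
    rw [← mul_assoc] at hrad
    exact hco.dvd_of_dvd_mul_right hrad
  exact Nat.le_of_dvd (by omega) h13

theorem count_le {A B : ℕ → Prop} (h : ∀ l, l.Prime → A l → B l) (L : ℝ) :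
    {l : ℕ | l.Prime ∧ (l : ℝ) ≤ L ∧ A l}.ncard ≤ {l : ℕ | l.Prime ∧ (l : ℝ) ≤ L ∧ B l}.ncard := by
  refine Set.ncard_le_ncard (fun l hl => ⟨hl.1, hl.2.1, h l hl.1 hl.2.2⟩) ?_
  refine (Set.finite_Icc 0 ⌊L⌋₊).subset fun l hl => ⟨Nat.zero_le _, Nat.le_floor hl.2.1⟩

/-- **Theorem.** -/
theorem result : ∃ L : ℕ → Set Config, (∀ N, 1 ≤ N → (L N).Finite ∧ ∀ x ∈ L N, Function.Injective x.2) ∧
    (∃ C : ℝ, 0 < C ∧ ∀ M X : ℝ, 1 ≤ M → 1 ≤ X →
      (({l : ℕ | l.Prime ∧ (l : ℝ) ≤ X ∧ NewCurves L M l}.ncard : ℕ) : ℝ) ≤ C * (M * X) ^ ((2 : ℝ) / 3)) ∧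
    (∀ ε : ℝ, 0 < ε → ε ≤ 1 → ∃ C : ℝ, 0 < C ∧ ∀ X : ℝ, 1 ≤ X →
      (({l : ℕ | l.Prime ∧ (l : ℝ) ≤ X ∧ NewCurves L ((l : ℝ) ^ (1 - ε)) l}.ncard : ℕ) : ℝ) ≤ C * X ^ (1 - ε / 10)) ∧
    ∃ C : ℝ, 0 < C ∧ ∀ M z R : ℝ, 1 ≤ M → 1 ≤ z → 1 ≤ R →
      (({r : ℕ | 1 ≤ r ∧ (r : ℝ) ≤ R ∧ (∀ q : ℕ, q.Prime → q ∣ r → z < q) ∧ NewCurves L M r}.ncard : ℕ) : ℝ) ≤
        C * M ^ 2 * R * z ^ (-(1 / 3) : ℝ) := by
  obtain ⟨L, hL⟩ := exists_lists
  refine ⟨L, fun N hN => ⟨(hL N hN).1, (hL N hN).2.1⟩, ?_, ?_, ?_⟩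
  · obtain ⟨C, hC, h⟩ := Pool.Agent.Q84.NX.hit_count
    refine ⟨C, hC, fun M X hM hX => le_trans ?_ (h M X hM hX)⟩
    exact_mod_cast count_le (fun l hl h' => hit_of_new (fun N hN => (hL N hN).2.2) hl h') X
  · intro ε hε hε1
    obtain ⟨C, hC, h⟩ := Pool.Agent.Q84.NX.hit_count_all ε hε hε1
    refine ⟨C, hC, fun X hX => le_trans ?_ (h X hX)⟩
    exact_mod_cast count_le (fun l hl h' => hit_of_new (fun N hN => (hL N hN).2.2) hl h') X
  · obtain ⟨C, hC, h⟩ := Pool.Agent.Q84.NX.hitR_count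
    refine ⟨C, hC, fun M z R hM hz hR => le_trans ?_ (h M z R hM hz hR)⟩
    have h1 := Set.ncard_le_ncard (s := {r : ℕ | 1 ≤ r ∧ (r : ℝ) ≤ R ∧ (∀ q : ℕ, q.Prime → q ∣ r → z < q) ∧ NewCurves L M r})
      (t := {r : ℕ | 1 ≤ r ∧ (r : ℝ) ≤ R ∧ (∀ q : ℕ, q.Prime → q ∣ r → z < q) ∧ Pool.Agent.Q84.NX.HitR M r})
      (fun r hr => ⟨hr.1, hr.2.1, hr.2.2.1, hitR_of_new (fun N hN => (hL N hN).2.2) hr.2.2.2⟩)
      ((Set.finite_Icc 1 ⌊R⌋₊).subset fun r hr => ⟨hr.1, Nat.le_floor hr.2.1⟩)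
    exact_mod_cast h1

end Pool.Agent.Results.MP_07b2d0_nt.AddingOnePrime
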