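import Pool.Agent.Q231.SH.Main

/-!
# The effective Shafarevich conjecture for hyperelliptic Jacobians with rational Weierstrass points
over almost all bases

The bases are the open subschemes `S = Spec ℤ[1/N]`, `N = N_S` squarefree, ordered by `N_S`. We
consider the hyperelliptic curves `y² = d (x - a_1) … (x - a_{2g+2})` of ALL genera `g ≥ 1` with
rational Weierstrass points and good reduction at all odd primes in `S`. Their Jacobians are
abelian schemes over `S[1/2]` of relative dimension `g`.

For every `ε > 0` there is ONE finite list of such curves, which does not depend on `S`, such that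
for all `S` outside a proportion `ε` all these curves are isomorphic over the algebraic closure to a
curve of the list. So every function of the curve which is invariant under isomorphism over the
algebraic closure, for instance the stable Faltings height of the Jacobian, or the dimension `g`
itself, is bounded by a constant `c(ε)` which does not depend on `S` and `g`, for all `S` outside a
proportion `ε`; and for every `φ` which tends to infinity (say `φ(N) = log log log N`) it is at most
`φ(N_S)` for one hundred percent of the `S`.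
-/

set_option autoImplicit false

namespace Pool.Agent.Results.MP_07b2d0_nt.AlmostAllBases

open Pool.Agent.Q231.SH Filter Topology

/-- the `S = Spec ℤ[1/N]` with `N_S ≤ T`, given by the squarefree integers `N = N_S` -/
def Bases (T : ℕ) : Set ℕ := {N | 1 ≤ N ∧ N ≤ T ∧ Squarefree N}

/-- all the curves with good reduction outside `2 N`, of all genera, are isomorphic over the
algebraic closure to a curve of the list `L` -/
def AllIn (L : Set Config) (N : ℕ) : Prop :=
  ∀ (g : ℕ) (d : ℚ) (a : Fin (2 * g + 2) → ℚ), 1 ≤ g → GoodOutside N d a →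
    ∃ b : Fin (2 * g + 2) → ℚ, (⟨g, b⟩ : Config) ∈ L ∧ IsoQbar a b

/-- a function of the curves `y² = d ∏ (x - a i)` which takes the same value at curves which are
isomorphic over the algebraic closure -/
def Invariant (h : (g : ℕ) → ℚ → (Fin (2 * g + 2) → ℚ) → ℝ) : Prop :=
  ∀ (g : ℕ) (d d' : ℚ) (a b : Fin (2 * g + 2) → ℚ), 1 ≤ g → d ≠ 0 → d' ≠ 0 →
    Function.Injective a → Function.Injective b → IsoQbar a b → h g d a = h g d' b

/-- some curve with good reduction outside `2 N` has `h > c` -/
def Exceeds (h : (g : ℕ) → ℚ → (Fin (2 * g + 2) → ℚ) → ℝ) (N : ℕ) (c : ℝ) : Prop :=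
  ∃ (g : ℕ) (d : ℚ) (a : Fin (2 * g + 2) → ℚ), 1 ≤ g ∧ GoodOutside N d a ∧ c < h g d a

lemma bases_eq (T : ℕ) : Bases T = (sqf T : Set ℕ) := by
  ext N
  simp [Bases, sqf, and_assoc]

lemma bases_finite (T : ℕ) : (Bases T).Finite := by
  rw [bases_eq]; exact Finset.finite_toSet _

lemma bases_le (T : ℕ) : (T : ℝ) ≤ 4 * (Bases T).ncard := by
  rw [bases_eq, Set.ncard_coe_finset]; exact le_sqf T

theorem list_part (ε : ℝ) (hε : 0 < ε) : ∃ L : Set Config, L.Finite ∧
    (∀ x ∈ L, Function.Injective x.2) ∧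
    ∀ T : ℕ, (({N | N ∈ Bases T ∧ ¬ AllIn L N}.ncard : ℕ) : ℝ) ≤ ε * (Bases T).ncard := by
  classical
  obtain ⟨L, hL, hinj, h⟩ := exists_list (ε := ε / 4) (by positivity)
  refine ⟨L, hL, hinj, fun T => ?_⟩
  have hfin : {N | N ∈ Bases T ∧ ¬ AllIn L N}.Finite := (bases_finite T).subset fun N hN => hN.1
  have h1 := h T hfin.toFinset (by
    intro N hN
    rw [Set.Finite.mem_toFinset] at hN
    obtain ⟨⟨h1, h2, h3⟩, h4⟩ := hN
    refine ⟨Finset.mem_Icc.2 ⟨h1, h2⟩, ?_⟩
    unfold AllIn at h4
    push Not at h4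
    exact h4)
  rw [Set.ncard_eq_toFinset_card _ hfin]
  have h2 := bases_le T
  nlinarith

theorem const_part (h : (g : ℕ) → ℚ → (Fin (2 * g + 2) → ℚ) → ℝ) (hh : Invariant h) (ε : ℝ)
    (hε : 0 < ε) : ∃ c : ℝ, ∀ T : ℕ,
      (({N | N ∈ Bases T ∧ Exceeds h N c}.ncard : ℕ) : ℝ) ≤ ε * (Bases T).ncard := by
  obtain ⟨L, hL, hinj, hT⟩ := list_part ε hε
  obtain ⟨c, hc⟩ := (hL.image fun x : Config => h x.1 1 x.2).bddAbove
  refine ⟨c, fun T => le_trans ?_ (hT T)⟩
  have hsub : {N | N ∈ Bases T ∧ Exceeds h N c} ⊆ {N | N ∈ Bases T ∧ ¬ AllIn L N} := by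
    rintro N ⟨h1, g, d, a, hg, hgood, hlt⟩
    refine ⟨h1, fun hall => ?_⟩
    obtain ⟨b, hb, hiso⟩ := hall g d a hg hgood
    have h2 : h g d a = h g 1 b :=
      hh g d 1 a b hg hgood.1 one_ne_zero hgood.2.1 (hinj _ hb) hiso
    have h3 : h g 1 b ≤ c := hc ⟨_, hb, rfl⟩
    linarith
  exact_mod_cast Set.ncard_le_ncard hsub ((bases_finite T).subset fun N hN => hN.1)

/-- **Effective Shafarevich for hyperelliptic Jacobians with rational Weierstrass points over
almost all bases.** (1) For every `ε > 0` there is one finite list `L` of curves such that for all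
bases `S` outside a proportion `ε`, all curves with rational Weierstrass points, of all genera
`g ≥ 1`, with good reduction at the odd primes in `S`, are isomorphic over the algebraic closure to
a curve of the list. Let `h` be a real function of the curves invariant under isomorphism over the
algebraic closure, such as the stable Faltings height of the Jacobian. (2) For every `ε > 0` there is
a constant `c` such that for all `S` outside a proportion `ε` we have `h ≤ c` for all these curves.
(3) If `φ` tends to infinity, then for one hundred percent of the `S` we have `h ≤ φ(N_S)` for all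
these curves. -/
theorem result :
    (∀ ε : ℝ, 0 < ε → ∃ L : Set Config, L.Finite ∧ (∀ x ∈ L, Function.Injective x.2) ∧
      ∀ T : ℕ, (({N | N ∈ Bases T ∧ ¬ AllIn L N}.ncard : ℕ) : ℝ) ≤ ε * (Bases T).ncard) ∧
    ∀ h : (g : ℕ) → ℚ → (Fin (2 * g + 2) → ℚ) → ℝ, Invariant h →
      (∀ ε : ℝ, 0 < ε → ∃ c : ℝ, ∀ T : ℕ,
        (({N | N ∈ Bases T ∧ Exceeds h N c}.ncard : ℕ) : ℝ) ≤ ε * (Bases T).ncard) ∧
      ∀ φ : ℕ → ℝ, Tendsto φ atTop atTop →
        Tendsto (fun T : ℕ => (({N | N ∈ Bases T ∧ Exceeds h N (φ N)}.ncard : ℕ) : ℝ) /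
          ((Bases T).ncard : ℝ)) atTop (𝓝 0) := by
  refine ⟨list_part, fun h hh => ⟨const_part h hh, fun φ hφ => ?_⟩⟩
  rw [Metric.tendsto_atTop]
  intro ε hε
  obtain ⟨c, hc⟩ := const_part h hh (ε / 2) (by positivity)
  obtain ⟨N0, hN0⟩ := eventually_atTop.1 (tendsto_atTop.1 hφ c)
  obtain ⟨T1, hT1⟩ := exists_nat_gt (8 * (N0 : ℝ) / ε)
  refine ⟨T1 + 1, fun T hT => ?_⟩
  have hTpos : (0 : ℝ) < T := by exact_mod_cast (by omega : 0 < T)
  have hb := bases_le T
  have hbpos : (0 : ℝ) < (Bases T).ncard := by linarith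
  have hsub : {N | N ∈ Bases T ∧ Exceeds h N (φ N)} ⊆
      {N | N ∈ Bases T ∧ Exceeds h N c} ∪ Set.Iio N0 := by
    rintro N ⟨h1, g, d, a, hg, hgood, hlt⟩
    rcases lt_or_ge N N0 with h2 | h2
    · exact Or.inr h2
    · exact Or.inl ⟨h1, g, d, a, hg, hgood, lt_of_le_of_lt (hN0 N h2) hlt⟩
  have hfin : ({N | N ∈ Bases T ∧ Exceeds h N c} ∪ Set.Iio N0).Finite :=
    ((bases_finite T).subset fun N hN => hN.1).union (Set.finite_Iio N0)
  have h1 := (Set.ncard_le_ncard hsub hfin).trans (Set.ncard_union_le _ _)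
  have h2 : (Set.Iio N0).ncard = N0 := by
    rw [← Finset.coe_range, Set.ncard_coe_finset, Finset.card_range]
  rw [h2] at h1
  have h3 : (({N | N ∈ Bases T ∧ Exceeds h N (φ N)}.ncard : ℕ) : ℝ) ≤
      (({N | N ∈ Bases T ∧ Exceeds h N c}.ncard : ℕ) : ℝ) + N0 := by exact_mod_cast h1
  have h4 := hc T
  have h5 : 8 * (N0 : ℝ) < ε * T := by
    rw [div_lt_iff₀ hε] at hT1
    have h6 : (T1 : ℝ) < T := by exact_mod_cast (by omega : T1 < T)
    nlinarith
  have h6 : (N0 : ℝ) < ε / 2 * (Bases T).ncard := by nlinarith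
  rw [Real.dist_eq, sub_zero, abs_of_nonneg (by positivity), div_lt_iff₀ hbpos]
  linarith

end Pool.Agent.Results.MP_07b2d0_nt.AlmostAllBases
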