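import Pool.Agent.Q84.NX.CrossStr

/-!
# Effective Shafarevich conjecture: hyperelliptic Jacobians over `Spec ℤ[1/(N l)]`, where `l` is a prime of a string

We consider the curves `y² = d (x - a_1) ⋯ (x - a_(2g+2))` of all genera `g ≥ 1`, where the `a_i` are rational, with good reduction at all odd primes
which do not divide `N`. There are finite lists `L(N)`, `N ≥ 1`, with the following property. Let `0 < ε ≤ 1`. For all `κ > 0` and `m` there is
`c' > 0` and for every `Z` a number `W` such that the following is true. For every large `X` there is a set `S` of at most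
`(log X) ^ (49 / 50)` primes, all larger than `Z`, such that for EVERY function `f` with values `1` and `-1` on the primes at least `X ^ (1 - κ)`
integers `n`, `X < n ≤ 3X`, satisfy: the interval `[n, n + W]` contains at least `m` primes, and for every prime `p` in it

* the Legendre symbol `(p / q)` is `f q` for all odd primes `q ≤ c' log X` outside `S`;
* for ALL primes `l` with `|l - k p| ≤ p ^ (ε / 80)` for some integer `k`, `1 ≤ k ≤ p ^ (ε / 80)` (for instance `l = p`), and ALL `N`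
  with `rad N ≤ l ^ (1 - ε)`, every curve with good reduction outside `2 N l` is isomorphic over the algebraic closure to a curve of the list `L(N)`.

So for `S = Spec ℤ[1/(N l)]` there is a bound for the heights of the Jacobians of these curves which depends only on `N`.

Method: the cross ratios of the branch points come from abc-triples with a radical dividing `2 N l`; by `MP_4ab349_nt.StringsOfPrimes` the triples
for which `l` divides `a b c` have a radical larger than `l ^ (2 - ε')`, so the radical divides `2 N`.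
-/

set_option autoImplicit false

open scoped Classical

namespace Pool.Agent.Results.MP_07b2d0_nt.StringsOfPrimes

open Finset Filter
open Pool.Agent.Q231.SH (Config GoodReduction GoodOutside IsoQbar IsTriple rad3 trip six)

/-- the product of the prime factors -/
def rad (n : ℕ) : ℕ := ∏ q ∈ n.primeFactors, q

/-- all the curves `y² = d ∏ (x - a i)` with good reduction at the odd primes not dividing `N`, of all genera, are isomorphic over the
algebraic closure to a curve of the list `L` -/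
def AllIn (L : Set Config) (N : ℕ) : Prop :=
  ∀ (g : ℕ) (d : ℚ) (a : Fin (2 * g + 2) → ℚ), 1 ≤ g → GoodOutside N d a →
    ∃ b : Fin (2 * g + 2) → ℚ, (⟨g, b⟩ : Config) ∈ L ∧ IsoQbar a b

/-- for all primes `l` within `p ^ (ε / 80)` of a multiple `k p`, `1 ≤ k ≤ p ^ (ε / 80)`, and all `N ≥ 1` with `rad N ≤ l ^ (1 - ε)`, the curves
for `N l` are in the list for `N` -/
def Fine (ε : ℝ) (L : ℕ → Set Config) (p : ℕ) : Prop :=
  ∀ k l N : ℕ, 1 ≤ k → (k : ℝ) ≤ (p : ℝ) ^ (ε / 80) → |(l : ℝ) - k * p| ≤ (p : ℝ) ^ (ε / 80) → l.Prime →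
    1 ≤ N → ((rad N : ℕ) : ℝ) ≤ (l : ℝ) ^ (1 - ε) → AllIn (L N) (N * l)

/-- one finite list for each `N`: if all the triples which divide `2 M` divide `2 N`, the curves for `M` are in the list for `N` -/
theorem exists_lists : ∃ L : ℕ → Set Config, ∀ N, 1 ≤ N → (L N).Finite ∧ (∀ x ∈ L N, Function.Injective x.2) ∧
    ∀ M, (∀ s, IsTriple s → rad3 s ∣ 2 * M → rad3 s ≤ 2 * N) → AllIn (L N) M := by
  have h : ∀ N : ℕ, ∃ L : Set Config, 1 ≤ N → L.Finite ∧ (∀ x ∈ L, Function.Injective x.2) ∧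
    ∀ M, (∀ s, IsTriple s → rad3 s ∣ 2 * M → rad3 s ≤ 2 * N) → AllIn L M := by
    intro N
    set Y : ℝ := 2 * (N : ℝ) with hY
    set Λ : Set ℚ := ⋃ s ∈ trip Y, (six s : Set ℚ) with hΛ
    have hΛfin : Λ.Finite := (Pool.Agent.Q231.SH.trip_finite Y).biUnion fun s _ => Finset.finite_toSet _
    obtain ⟨L, hL, hinj, hlist⟩ := Pool.Agent.Q290.AB.exists_list Λ hΛfin
    refine ⟨{x : Config | (⟨2 * x.1 + 2, x.2⟩ : Pool.Agent.Q290.AB.Conf) ∈ L}, fun hN => ⟨?_, ?_, ?_⟩⟩
    · refine Set.Finite.preimage (f := fun x : Config => (⟨2 * x.1 + 2, x.2⟩ : Pool.Agent.Q290.AB.Conf)) ?_ hL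
      rintro ⟨g, a⟩ - ⟨g', a'⟩ - h
      have h1 : 2 * g + 2 = 2 * g' + 2 := congrArg Sigma.fst h
      have h2 : g = g' := by omega
      subst h2
      have h3 : a = a' := eq_of_heq (Sigma.mk.inj_iff.1 h).2
      rw [h3]
    · intro x hx
      exact hinj _ hx
    · intro M hM g d a hg hgood
      obtain ⟨b, hbL, hcr⟩ := hlist (2 * g + 2) (by omega) a hgood.2.1 (fun i hi => by
        obtain ⟨s, hs, h6⟩ := Pool.Agent.Q231.SH.cross_mem hg hgood (Y := Y) (by
          rintro ⟨t, ht, h9, h10⟩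
          have h11 : (rad3 t : ℝ) ≤ 2 * N := by exact_mod_cast hM t ht h10
          linarith) i hi
        exact Set.mem_biUnion hs h6)
      exact ⟨b, hbL, Pool.Agent.Q231.SH.iso_of_cross hg hgood.2.1 (hinj _ hbL) hcr.symm⟩
  choose L hL using h
  exact ⟨L, hL⟩

/-- **Theorem.** -/
theorem result : ∃ L : ℕ → Set Config, (∀ N, 1 ≤ N → (L N).Finite ∧ ∀ x ∈ L N, Function.Injective x.2) ∧
    ∀ ε : ℝ, 0 < ε → ε ≤ 1 →
    ∀ κ : ℝ, 0 < κ → ∀ m : ℕ, ∃ c' : ℝ, 0 < c' ∧
    ∀ Z : ℕ, ∃ W : ℕ, ∃ X₀ : ℝ, ∀ X : ℝ, X₀ ≤ X →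
    ∃ S : Finset ℕ, (∀ q ∈ S, q.Prime ∧ Z < q) ∧ (S.card : ℝ) ≤ (Real.log X) ^ (49 / 50 : ℝ) ∧
    ∀ f : ℕ → ℤ, (∀ q, f q = 1 ∨ f q = -1) →
      X ^ (1 - κ) ≤ (((Icc 1 ⌊3 * X⌋₊).filter fun n : ℕ => X < n ∧
        m ≤ ((Icc n (n + W)).filter Nat.Prime).card ∧
        ∀ p ∈ Icc n (n + W), p.Prime → Fine ε L p ∧
          ∀ q : ℕ, q.Prime → q ≠ 2 → (q : ℝ) ≤ c' * Real.log X → q ∉ S → jacobiSym p q = f q).card : ℝ) := by
  obtain ⟨L, hL⟩ := exists_lists
  refine ⟨L, fun N hN => ⟨(hL N hN).1, (hL N hN).2.1⟩, ?_⟩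
  intro ε hε hε1 κ hκ m
  obtain ⟨c', hc', h⟩ := Pool.Agent.Results.MP_4ab349_nt.StringsOfPrimes.result (ε / 2) (by positivity) (by linarith) κ hκ m
  obtain ⟨X₁, hX₁, hlarge⟩ := Pool.Agent.Q84.NX.large 1 ε hε
  refine ⟨c', hc', fun Z => ?_⟩
  obtain ⟨W, X₀, hX₀⟩ := h Z
  refine ⟨W, max X₀ X₁, fun X hX => ?_⟩
  obtain ⟨S, hS1, hS2, hS3⟩ := hX₀ X ((le_max_left _ _).trans hX)
  refine ⟨S, hS1, hS2, fun f hf => (hS3 f hf).trans ?_⟩
  rw [Nat.cast_le]
  apply card_le_card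
  intro n hn
  rw [mem_filter] at hn ⊢
  obtain ⟨hn1, hn2, hn3, hn4⟩ := hn
  refine ⟨hn1, hn2, hn3, fun p hp hpp => ⟨?_, (hn4 p hp hpp).2⟩⟩
  have hfine := (hn4 p hp hpp).1
  have hpX : X₁ ≤ p := by
    have h1 : (n : ℝ) ≤ p := by exact_mod_cast (mem_Icc.1 hp).1
    have h2 := (le_max_right X₀ X₁).trans hX
    linarith
  intro k l N hk hkp hkl hl hN hNl
  refine (hL N hN).2.2 (N * l) fun s hs hrad => ?_
  have hl0 : (0 : ℝ) < l := by exact_mod_cast hl.pos
  have hl2 := Pool.Agent.Q84.NX.near_ge hk (by linarith) (by linarith) hkl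
  obtain ⟨-, hlD⟩ := hlarge l (by linarith)
  rw [Nat.factorial_one] at hlD
  have hls : ¬ l ∣ s.1 * s.2 * (s.1 + s.2) := by
    intro hls
    have h1 := (hfine k l hk (by rwa [show ε / 2 / 40 = ε / 80 by ring]) (by rwa [show ε / 2 / 40 = ε / 80 by ring])).1
      s.1 s.2 hs.1 (hs.1.trans_le hs.2.1) hs.2.2 hls
    have h2 : (l : ℝ) * l ≤ Pool.Agent.Results.MP_4ab349_nt.StringsOfPrimes.M l := by
      unfold Pool.Agent.Results.MP_4ab349_nt.StringsOfPrimes.M
        Pool.Agent.Results.MP_4ab349_nt.StringsOfPrimes.largestPrime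
      rw [Nat.Prime.primeFactors hl, Finset.sup_singleton]
      exact le_max_right _ _
    have h4 : (rad3 s : ℝ) ≤ 2 * ((rad N : ℕ) * l) := by
      exact_mod_cast Nat.le_of_dvd (Nat.mul_pos two_pos (Nat.mul_pos (Pool.Agent.Q84.NX.rd_pos N) hl.pos))
        (Pool.Agent.Q84.NX.rad3_rd hs (by omega) hrad)
    have h5 : Pool.Agent.Results.MP_4ab349_nt.StringsOfPrimes.radical (s.1 * s.2 * (s.1 + s.2)) = rad3 s := rfl
    rw [h5] at h1
    have h9 : (l : ℝ) * l * (l : ℝ) ^ (-(ε / 2)) ≤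
        Pool.Agent.Results.MP_4ab349_nt.StringsOfPrimes.M l * (l : ℝ) ^ (-(ε / 2)) :=
      mul_le_mul_of_nonneg_right h2 (by positivity)
    have h10 : 2 * ((rad N : ℕ) * (l : ℝ)) ≤ (l : ℝ) * l * (l : ℝ) ^ (-(ε / 2)) := by
      have h11 : (l : ℝ) * (l : ℝ) ^ (-(ε / 2)) = (l : ℝ) ^ (ε / 2) * (l : ℝ) ^ (1 - ε) := by
        rw [← Real.rpow_add hl0]
        nth_rewrite 1 [← Real.rpow_one (l : ℝ)]
        rw [← Real.rpow_add hl0]
        congr 1; ring
      have h12 : 2 * ((rad N : ℕ) : ℝ) ≤ (l : ℝ) ^ (ε / 2) * (l : ℝ) ^ (1 - ε) := by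
        refine mul_le_mul ?_ hNl (by positivity) (by positivity)
        push_cast at hlD
        linarith
      calc 2 * ((rad N : ℕ) * (l : ℝ)) = l * (2 * (rad N : ℕ)) := by ring
        _ ≤ l * ((l : ℝ) ^ (ε / 2) * (l : ℝ) ^ (1 - ε)) := mul_le_mul_of_nonneg_left h12 hl0.le
        _ = (l : ℝ) * l * (l : ℝ) ^ (-(ε / 2)) := by rw [← h11]; ring
    linarith
  have hco : Nat.Coprime (rad3 s) l := by
    rw [Nat.coprime_comm, Nat.Prime.coprime_iff_not_dvd hl]
    intro hd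
    apply hls
    unfold Pool.Agent.Q231.SH.rad3 at hd
    rw [Prime.dvd_finsetProd_iff hl.prime] at hd
    obtain ⟨q, hq, hlq⟩ := hd
    have := (Nat.prime_dvd_prime_iff_eq hl (Nat.prime_of_mem_primeFactors hq)).1 hlq
    rw [this]
    exact Nat.dvd_of_mem_primeFactors hq
  have h13 : rad3 s ∣ 2 * N := by
    rw [← mul_assoc] at hrad
    exact hco.dvd_of_dvd_mul_right hrad
  exact Nat.le_of_dvd (by omega) h13

end Pool.Agent.Results.MP_07b2d0_nt.StringsOfPrimes
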